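import Pool.Agent.N162.CV.Stm

/-!
The degree of the intersection of a space curve with a surface.
-/

set_option autoImplicit false
set_option linter.unusedSectionVars false

open FF Pool.Agent.W603.LV Pool.Agent.Y184.NT Pool.Agent.N162.BC IntermediateField

namespace Pool.Agent.N944.CV

open Pool.Agent.N162.CV

variable {Ω E : Type} [Field Ω] [Field E] [Algebra Ω E]

theorem At.ge {v : Place Ω E} {X : Fin 4 → E} {p : Fin 4 → Ω} (h : At v X p) (i : Fin 4) :
    Ge v 0 (X i) := by
  have h1 : Ge v 0 (X i - algebraMap Ω E (p i)) := (h i).mono (by norm_num)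
  have h2 := h1.add (Ge.const (P := v) (p i))
  simpa using h2

theorem const_eq {v : Place Ω E} {a b : Ω} {f : E} (ha : Ge v 1 (f - algebraMap Ω E a))
    (hb : Ge v 1 (f - algebraMap Ω E b)) : a = b := by
  by_contra hne
  have h1 : Ge v 1 (algebraMap Ω E (a - b)) := by
    have := hb.sub ha
    convert this using 1
    rw [map_sub]; ring
  rcases h1 with h | h
  · rw [map_eq_zero] at h
    exact hne (sub_eq_zero.1 h)
  · rw [v.ord_const (sub_ne_zero.2 hne)] at h
    omega

theorem At.unique {v : Place Ω E} {X : Fin 4 → E} {p q : Fin 4 → Ω} (h : At v X p)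
    (h' : At v X q) : p = q := by
  funext i
  exact const_eq (h i) (h' i)

variable [CharZero Ω] [IsFF Ω E]

/-- the places where `f` has a zero or a pole -/
noncomputable def sup (Ω : Type) {E : Type} [Field Ω] [Field E] [Algebra Ω E] [CharZero Ω]
    [IsFF Ω E] (f : E) : Finset (Place Ω E) :=
  (finite_support (k := Ω) f).toFinset

theorem mem_sup {f : E} {v : Place Ω E} : v ∈ sup Ω f ↔ v.ord f ≠ 0 := by
  unfold sup
  simp

open Classical in
theorem mu_eq (X : Fin 4 → E) (f : E) (p : Fin 4 → Ω) :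
    mu X f p = ∑ v ∈ (sup Ω f).filter (fun v => At v X p), v.ord f := by
  unfold mu
  apply finsum_mem_eq_sum_of_inter_support_eq
  ext v
  simp only [Set.mem_inter_iff, Set.mem_setOf_eq, Function.mem_support, Finset.coe_filter, mem_sup]
  tauto

section

variable {X : Fin 4 → E} {f : E}

theorem ord_nonneg_of (hf : f ≠ 0) (hfin : ∀ v : Place Ω E, Ge v 0 (X 1) → Ge v 0 f)
    {v : Place Ω E} {p : Fin 4 → Ω} (h : At v X p) : 0 ≤ v.ord f :=
  (hfin v (At.ge h 1)).resolve_left hf

theorem mu_nonneg (hf : f ≠ 0) (hfin : ∀ v : Place Ω E, Ge v 0 (X 1) → Ge v 0 f)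
    (p : Fin 4 → Ω) : 0 ≤ mu X f p := by
  classical
  rw [mu_eq]
  refine Finset.sum_nonneg fun v hv => ?_
  exact ord_nonneg_of hf hfin (Finset.mem_filter.1 hv).2

theorem mu_ne (hf : f ≠ 0) (hfin : ∀ v : Place Ω E, Ge v 0 (X 1) → Ge v 0 f)
    (p : Fin 4 → Ω) : mu X f p ≠ 0 ↔ ∃ v : Place Ω E, At v X p ∧ 0 < v.ord f := by
  classical
  rw [mu_eq]
  constructor
  · intro h
    obtain ⟨v, hv, hv2⟩ := Finset.exists_ne_zero_of_sum_ne_zero h
    have h1 := (Finset.mem_filter.1 hv).2
    refine ⟨v, h1, ?_⟩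
    exact lt_of_le_of_ne (ord_nonneg_of hf hfin h1) (Ne.symm hv2)
  · rintro ⟨v, hv, hv2⟩
    apply ne_of_gt
    refine Finset.sum_pos' (fun w hw => ord_nonneg_of hf hfin (Finset.mem_filter.1 hw).2)
      ⟨v, ?_, hv2⟩
    rw [Finset.mem_filter, mem_sup]
    exact ⟨ne_of_gt hv2, hv⟩

theorem mu_finite (hf : f ≠ 0) (hfin : ∀ v : Place Ω E, Ge v 0 (X 1) → Ge v 0 f) :
    {p : Fin 4 → Ω | mu X f p ≠ 0}.Finite := by
  classical
  refine ((sup Ω f).finite_toSet.image
    (fun v => if h : ∃ p, At v X p then h.choose else (0 : Fin 4 → Ω))).subset ?_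
  intro p hp
  obtain ⟨v, hv, hv2⟩ := (mu_ne hf hfin p).1 hp
  refine ⟨v, ?_, ?_⟩
  · rw [Finset.mem_coe, mem_sup]; exact ne_of_gt hv2
  · have h : ∃ p, At v X p := ⟨p, hv⟩
    simp only [dif_pos h]
    exact At.unique h.choose_spec hv

end

theorem deg_one [IsAlgClosed Ω] (P : Place Ω E) : P.deg = 1 := by
  have h1 := IsAlgClosed.algebraMap_bijective_of_isIntegral (k := Ω) (K := P.RF)
  have h2 : Module.finrank Ω P.RF = Module.finrank Ω Ω :=
    (LinearEquiv.finrank_eq (LinearEquiv.ofBijective (Algebra.linearMap Ω P.RF) h1)).symm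
  unfold Place.deg
  rw [h2, Module.finrank_self]

open Classical in
theorem sum_fin [IsAlgClosed Ω] {x f : E} (hx : Transcendental Ω x) (d : ℕ) (hf : f ≠ 0)
    (hinf : ∀ v : Place Ω E, v.ord x < 0 → Ge v 0 (f / x ^ d)) :
    ∑ v ∈ (sup Ω f).filter (fun v => Ge v 0 x), v.ord f ≤ (Module.finrank Ω⟮x⟯ E * d : ℕ) := by
  have hx0 : x ≠ 0 := by
    rintro rfl
    exact hx isAlgebraic_zero
  let D : Place Ω E →₀ ℤ := (divisor Ω f).filter (fun v => Ge v 0 x)
  have h1 : D ≤ divisor Ω f + d • polar x := by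
    intro v
    rw [Finsupp.add_apply, Finsupp.smul_apply, polar_apply, divisor_apply]
    by_cases hv : Ge v 0 x
    · have : D v = v.ord f := by
        change (divisor Ω f).filter (fun v => Ge v 0 x) v = _
        rw [Finsupp.filter_apply_pos (fun v => Ge v 0 x) (divisor Ω f) hv, divisor_apply]
      rw [this]
      have h2 : (0 : ℤ) ≤ d • max (-v.ord x) 0 := by
        rw [nsmul_eq_mul]; positivity
      linarith
    · have : D v = 0 := by
        change (divisor Ω f).filter (fun v => Ge v 0 x) v = _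
        rw [Finsupp.filter_apply_neg (fun v => Ge v 0 x) (divisor Ω f) hv]
      rw [this]
      have h3 : v.ord x < 0 := by
        by_contra hc
        exact hv (Or.inr (by omega))
      have h4 := hinf v h3
      have h5 : 0 ≤ v.ord (f / x ^ d) := h4.resolve_left (div_ne_zero hf (pow_ne_zero _ hx0))
      rw [v.ord_div hf (pow_ne_zero _ hx0), v.ord_pow] at h5
      rw [max_eq_left (by omega), nsmul_eq_mul]
      linarith
  have h2 := ddeg_mono h1
  rw [ddeg_add, ddeg_divisor, ddeg_nsmul, ddeg_polar hx, zero_add] at h2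
  have h3 : ddeg D = ∑ v ∈ (sup Ω f).filter (fun v => Ge v 0 x), v.ord f := by
    unfold ddeg
    rw [Finsupp.sum_of_support_subset (s := (sup Ω f).filter (fun v => Ge v 0 x))]
    · refine Finset.sum_congr rfl fun v hv => ?_
      rw [deg_one]
      have : D v = v.ord f := by
        change (divisor Ω f).filter (fun v => Ge v 0 x) v = _
        rw [Finsupp.filter_apply_pos (fun v => Ge v 0 x) (divisor Ω f) (Finset.mem_filter.1 hv).2, divisor_apply]
      rw [this]; simp
    · intro v hv
      have hv' : v ∈ ((divisor Ω f).filter (fun v => Ge v 0 x)).support := hv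
      rw [Finsupp.support_filter, Finset.mem_filter, Finsupp.mem_support_iff, divisor_apply] at hv'
      rw [Finset.mem_filter, mem_sup]
      exact hv'
    · intro v _; simp
  rw [← h3]
  push_cast
  linarith

theorem c1_ : StC1 := by
  intro Ω E _ _ _ _ _ _ X hX f d hf hfin hinf
  classical
  refine ⟨mu_nonneg hf hfin, mu_ne hf hfin, mu_finite hf hfin, fun Q => ?_⟩
  refine le_trans ?_ (sum_fin (x := X 1) hX.tr d hf hinf)
  have h1 : ∑ p ∈ Q, mu X f p =
      ∑ v ∈ sup Ω f, ∑ p ∈ Q, if At v X p then v.ord f else 0 := by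
    rw [Finset.sum_comm]
    refine Finset.sum_congr rfl fun p _ => ?_
    rw [mu_eq, Finset.sum_filter]
  rw [h1, Finset.sum_filter]
  refine Finset.sum_le_sum fun v _ => ?_
  by_cases h : ∃ p ∈ Q, At v X p
  · obtain ⟨p, hp, hv⟩ := h
    rw [if_pos (At.ge hv 1)]
    rw [Finset.sum_eq_single p]
    · rw [if_pos hv]
    · intro q _ hq
      rw [if_neg]
      intro hv'
      exact hq (At.unique hv' hv)
    · intro h; exact absurd hp h
  · rw [Finset.sum_eq_zero]
    · split_ifs with h2
      · exact (hfin v h2).resolve_left hf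
      · exact le_rfl
    · intro p hp
      rw [if_neg]
      intro hv
      exact h ⟨p, hp, hv⟩

end Pool.Agent.N944.CV
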